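import Mathlib

namespace Pool.Agent.Results.MP_4d4a97_an.Q1

open Set MeasureTheory MvPolynomial Real

/-- `R f D g`: the function `g` with domain `D` belongs to `R(f₁, f₂)` on `(a, b) = (-1, 2)`. -/
inductive R (f : Fin 2 → ℝ → ℝ) : Set ℝ → (ℝ → ℝ) → Prop
  | base (i : Fin 2) : R f (Ioo (-1) 2) (f i)
  | rat (m : ℕ) (D : Fin m → Set ℝ) (g : Fin m → ℝ → ℝ) (h : ∀ j, R f (D j) (g j))
      (P Q : MvPolynomial (Fin m) ℝ) :
      R f {x | x ∈ Ioo (-1 : ℝ) 2 ∧ (∀ j, x ∈ D j) ∧ eval (fun j => g j x) Q ≠ 0}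
        fun x => eval (fun j => g j x) P / eval (fun j => g j x) Q
  | comp (D E : Set ℝ) (h k : ℝ → ℝ) : R f D h → R f E k → R f {x | x ∈ E ∧ k x ∈ D} (h ∘ k)

/-- The indefinite integral of `g` on `(α, β)` belongs to `R`. -/
def Prim (f : Fin 2 → ℝ → ℝ) (g : ℝ → ℝ) (α β : ℝ) : Prop :=
  ∃ E h, R f E h ∧ ∀ x ∈ Ioo α β, x ∈ E ∧ h x = ∫ t in α..x, g t

noncomputable def d (u : ℕ → Bool) : ℝ := ofDigits fun i => cond (u i) (2 : Fin 3) 0

lemma null : volume cantorSet = 0 := by
  have h (c : ℝ) := Measure.addHaar_image_homothety volume c (1 / 3 : ℝ) cantorSet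
  have := (congrArg volume cantorSet_eq_union_halves).le.trans (measure_union_le _ _)
  rw [show (· / 3) = ⇑(AffineMap.homothety (0 : ℝ) (1 / 3 : ℝ)) by ext; simp [AffineMap.homothety_apply]; ring,
    show (fun x => (2 + x) / 3) = ⇑(AffineMap.homothety (1 : ℝ) (1 / 3 : ℝ)) by
      ext; simp [AffineMap.homothety_apply]; ring, h, h, ← add_mul, ← ENNReal.ofReal_add (by positivity)
      (by positivity)] at this
  by_contra g
  refine ((ENNReal.mul_lt_mul_left g isCompact_cantorSet.measure_lt_top.ne ?_).trans_eq (one_mul _)).not_ge this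
  simp; norm_num

theorem result : ∃ f : Fin 2 → ℝ → ℝ, (∀ i, IntegrableOn (f i) (Ioo (-1) 2)) ∧
    ∀ D g, R f D g → ∀ α β, -1 ≤ α → α < β → β ≤ 2 → (∀ᵐ x, x ∈ Ioo α β → x ∈ D) →
      IntegrableOn g (Ioo α β) → Prim f g α β := by
  let b := PolishSpace.measurableEquivNatBoolOfNotCountable (α := ℝ) not_countable
  obtain ⟨κ⟩ : Nonempty (C(ℝ, ℝ) ↪ (ℕ → Bool)) := by
    rw [← Cardinal.le_def]
    refine (Cardinal.mk_le_of_injective (f := fun (F : C(ℝ, ℝ)) (q : ℚ) => F q) fun F G h =>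
      DFunLike.coe_injective (Rat.denseRange_cast.equalizer F.2 G.2 h)).trans (by simp [Cardinal.mk_real])
  have dm (u) : d u ∈ cantorSet := ofDigits_bool_to_fin_three_mem_cantorSet u
  have di : d.Injective := fun u v h => cantorSetEquivNatToBool.symm.injective (Subtype.ext h)
  let ι (x : ℝ) := d fun i => i % 2 = 0 && b x (i / 2)
  let t (F : C(ℝ, ℝ)) := d fun i => i % 2 = 1 && κ F (i / 2)
  have ad (x F) : ι x + t F = d fun i => if i % 2 = 0 then b x (i / 2) else κ F (i / 2) :=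
    (summable_ofDigitsTerm.tsum_add summable_ofDigitsTerm).symm.trans (tsum_congr fun i => by
      rcases Nat.mod_two_eq_zero_or_one i with h | h <;> simp [ofDigitsTerm, h])
  have inj : Function.Injective fun p : ℝ × C(ℝ, ℝ) => ι p.1 + t p.2 := fun p q h => by
    simp only [ad] at h
    refine Prod.ext (b.injective (funext fun i => ?_)) (κ.injective (funext fun i => ?_))
    · simpa using congrFun (di h) (2 * i)
    · simpa [show (2 * i + 1) / 2 = i by omega] using congrFun (di h) (2 * i + 1)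
  let U := Function.extend (fun p : ℝ × C(ℝ, ℝ) => ι p.1 + t p.2) (fun p => p.2 p.1) 0
  refine ⟨![ι, U], fun i => ?_, fun D g _ α β a _ c _ h => ?_⟩
  · fin_cases i
    · refine .of_bound (by simp) (Measurable.aestronglyMeasurable (continuous_ofDigits.measurable.comp
        (measurable_pi_lambda _ fun i => ?_))) 1 (.of_forall fun x =>
          abs_le.2 ⟨neg_one_lt_zero.le.trans (ofDigits_nonneg _),
            ofDigits_le_one _⟩)
      exact (measurable_of_countable fun y : Bool => cond (i % 2 = 0 && y) (2 : Fin 3) 0).comp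
        ((measurable_pi_apply _).comp b.measurable)
    · refine ((integrable_zero ℝ ℝ _).congr (g := U) (Filter.mem_of_superset (compl_mem_ae_iff.2 null)
        fun y hy => (Function.extend_apply' _ (0 : ℝ → ℝ) y ?_).symm)).integrableOn
      rintro ⟨p, rfl⟩
      exact hy (ad _ _ ▸ dm _)
  let F : C(ℝ, ℝ) := ⟨_, intervalIntegral.continuous_primitive (fun _ _ =>
    (h.integrable_indicator measurableSet_Ioo).intervalIntegrable) α⟩
  refine ⟨_, _, .comp _ _ _ _ (.base 1) (.rat 1 _ _ (fun _ => .base 0) (X 0 + C (t F)) 1), fun x hx => ?_⟩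
  have := cantorSet_subset_unitInterval (ad x F ▸ dm _)
  have m : x ∈ Ioo (-1 : ℝ) 2 := ⟨a.trans_lt hx.1, hx.2.trans_le c⟩
  refine ⟨⟨⟨m, fun _ => m, by simp⟩, by simp; constructor <;> linarith [this.1, this.2]⟩, ?_⟩
  simp only [Function.comp, map_add, eval_X, eval_C, map_one, div_one]
  refine (inj.extend_apply (fun p => p.2 p.1) 0 (x, F)).trans ?_
  refine (intervalIntegral.integral_congr_ae (.of_forall fun y hy => ?_))
  rw [uIoc_of_le hx.1.le] at hy
  exact indicator_of_mem (s := Ioo α β) ⟨hy.1, hy.2.trans_lt hx.2⟩ _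

end Pool.Agent.Results.MP_4d4a97_an.Q1
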